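import Mathlib
import Pool.Agent.H671R2.ZDefs

/-!
# Matching cuts on graphs without a fixed subgraph: the problem
-/

set_option autoImplicit false

namespace Pool.Agent.R892.MC

open Pool.Agent.NPC Pool.Agent.NPC.R671 SimpleGraph

/-- The partition of the vertices into `A` and its complement gives a matching cut: both parts are
not empty, and the edges with one end in each part form a matching, that is, two such edges `u v` and
`u w` with a common end are equal. -/
def IsMatchingCut {V : Type} (G : SimpleGraph V) (A : Set V) : Prop :=
  A.Nonempty ∧ Aᶜ.Nonempty ∧ ∀ u v w, G.Adj u v → G.Adj u w → (u ∈ A ↔ v ∉ A) → (u ∈ A ↔ w ∉ A) →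
    v = w

/-- MATCHING CUT on `F`-subgraph-free graphs. The input is the adjacency matrix of an
`F`-subgraph-free graph, the question is whether it has a matching cut. -/
def MatchingCutOn {W : Type} (F : SimpleGraph W) (M : List (List Bool)) : Prop :=
  ∃ (n : ℕ) (G : SimpleGraph (Fin n)), R671.adjMatrix G = M ∧ F.Free G ∧ ∃ A, IsMatchingCut G A

/-- The tree `S_{2,2,2,2}`: the centre `none` is joined to the four vertices `some (i, false)`, and
`some (i, false)` is joined to the leaf `some (i, true)`. -/
def S2222 : SimpleGraph (Option (Fin 4 × Bool)) :=
  SimpleGraph.fromRel fun x y => match x, y with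
    | none, some (_, false) => True
    | some (i, false), some (j, true) => i = j
    | _, _ => False

end Pool.Agent.R892.MC
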