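import Pool.Agent.R892.MC.Defs

/-!
# Matching cuts: the construction
-/

set_option autoImplicit false
set_option linter.unusedSectionVars false

namespace Pool.Agent.R892.MC

open SimpleGraph

variable {M : ℕ} {Nm : Type}

/-- `o'` is the next copy of the same name after `o`. -/
def Nxt (nm : Fin (3 * M) → Nm) (o o' : Fin (3 * M)) : Prop :=
  nm o = nm o' ∧ o < o' ∧ ∀ k, o < k → k < o' → nm k ≠ nm o

/-- Vertices of the construction. -/
inductive Vx (nm : Fin (3 * M) → Nm) : Type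
  | P (o : Fin (3 * M))
  | Z (c : Fin M)
  | Y (c : Fin M) (i : Fin 3)
  | L (o o' : Fin (3 * M)) (h : Nxt nm o o') (i : Fin 3)

variable {nm : Fin (3 * M) → Nm}

/-- The adjacencies, in one direction. -/
def R : Vx nm → Vx nm → Prop
  | .L o o' _ _, .P x => x = o ∨ x = o'
  | .Y c _, .P x => x.1 = 3 * c.1 + 2
  | .Y c _, .Z c' => c' = c
  | .Z c, .P x => x.1 = 3 * c.1 ∨ x.1 = 3 * c.1 + 1
  | _, _ => False

/-- The graph. -/
def Gr (nm : Fin (3 * M) → Nm) : SimpleGraph (Vx nm) where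
  Adj u v := R u v ∨ R v u
  symm := ⟨fun _ _ h => Or.symm h⟩
  loopless := ⟨by
    rintro (o | c | ⟨c, i⟩ | ⟨o, o', h, i⟩) (h | h) <;> exact h⟩

/-- The name of a vertex. -/
def name : Vx nm → Nm
  | .P o => nm o
  | .Z c => nm ⟨3 * c.1 + 2, by omega⟩
  | .Y c _ => nm ⟨3 * c.1 + 2, by omega⟩
  | .L o _ _ _ => nm o

/-! ### The graph is `S_{2,2,2,2}`-subgraph-free -/

/-- The number of a leg. -/
def leg : Vx nm → Vx nm → Fin 3
  | .P o, .L x _ _ _ => if x = o then 0 else 1
  | .P _, _ => 2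
  | .Z c, .P x => if x.1 = 3 * c.1 then 1 else 2
  | .L o _ _ _, .P x => if x = o then 0 else 1
  | .Y _ _, .Z _ => 1
  | _, _ => 0

theorem nxt_unique {o o' o'' : Fin (3 * M)} (h : Nxt nm o o')
    (h' : Nxt nm o o'') : o' = o'' := by
  rcases lt_trichotomy o' o'' with hlt | rfl | hlt
  · exact absurd h.1.symm (h'.2.2 o' h.2.1 hlt)
  · rfl
  · exact absurd h'.1.symm (h.2.2 o'' h'.2.1 hlt)

theorem nxt_unique' {o o' o'' : Fin (3 * M)} (h : Nxt nm o' o)
    (h' : Nxt nm o'' o) : o' = o'' := by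
  rcases lt_trichotomy o' o'' with hlt | rfl | hlt
  · exact absurd (h'.1.trans h.1.symm) (h.2.2 o'' hlt h'.2.1)
  · rfl
  · exact absurd (h.1.trans h'.1.symm) (h'.2.2 o' hlt h.2.1)

/-- The other neighbour of a vertex of degree two. -/
theorem nb_L {o o' : Fin (3 * M)} {h : Nxt nm o o'} {i : Fin 3} {w : Vx nm}
    (hw : (Gr nm).Adj (.L o o' h i) w) : w = .P o ∨ w = .P o' := by
  rcases w with x | c | ⟨c, j⟩ | ⟨x, x', h', j⟩
  · rcases hw with hw | hw
    · exact hw.imp (fun h => by rw [h]) (fun h => by rw [h])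
    · exact hw.elim
  · exact (hw.elim id id).elim
  · exact (hw.elim id id).elim
  · exact (hw.elim id id).elim

theorem nb_Y {c : Fin M} {i : Fin 3} {w : Vx nm}
    (hw : (Gr nm).Adj (.Y c i) w) : w = .P ⟨3 * c.1 + 2, by omega⟩ ∨ w = .Z c := by
  rcases w with x | c' | ⟨c', j⟩ | ⟨x, x', h', j⟩
  · rcases hw with hw | hw
    · left
      exact congrArg Vx.P (Fin.ext hw)
    · exact hw.elim
  · rcases hw with hw | hw
    · right
      exact congrArg Vx.Z hw
    · exact hw.elim
  · exact (hw.elim id id).elim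
  · exact (hw.elim id id).elim

theorem leg_inj {v u u' w w' : Vx nm} (h1 : (Gr nm).Adj v u) (h2 : (Gr nm).Adj v u')
    (hne : u ≠ u') (hl : leg v u = leg v u') (h3 : (Gr nm).Adj u w) (h4 : (Gr nm).Adj u' w')
    (hw : w ≠ v) (hw' : w' ≠ v) : w = w' := by
  rcases v with o | c | ⟨c, i⟩ | ⟨o, o', h, i⟩
  · rcases u with x | x | ⟨x, j⟩ | ⟨x, y, hx, j⟩ <;>
      rcases u' with x' | x' | ⟨x', j'⟩ | ⟨x', y', hx', j'⟩ <;>
      try exact (h1.elim id id).elim
    all_goals try exact (h2.elim id id).elim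
    all_goals simp only [leg] at hl
    · exfalso
      have e1 : o.1 = 3 * x.1 ∨ o.1 = 3 * x.1 + 1 := h1.elim (fun h => h.elim) id
      have e2 : o.1 = 3 * x'.1 ∨ o.1 = 3 * x'.1 + 1 := h2.elim (fun h => h.elim) id
      exact hne (congrArg Vx.Z (Fin.ext (by omega)))
    · exfalso
      have e1 : o.1 = 3 * x.1 ∨ o.1 = 3 * x.1 + 1 := h1.elim (fun h => h.elim) id
      have e2 : o.1 = 3 * x'.1 + 2 := h2.elim (fun h => h.elim) id
      omega
    · exfalso
      revert hl; split <;> intro hl <;> exact absurd hl (by decide)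
    · exfalso
      have e1 : o.1 = 3 * x.1 + 2 := h1.elim (fun h => h.elim) id
      have e2 : o.1 = 3 * x'.1 ∨ o.1 = 3 * x'.1 + 1 := h2.elim (fun h => h.elim) id
      omega
    · have e1 : o.1 = 3 * x.1 + 2 := h1.elim (fun h => h.elim) id
      have e2 : o.1 = 3 * x'.1 + 2 := h2.elim (fun h => h.elim) id
      have e3 : x = x' := Fin.ext (by omega)
      subst e3
      have eo : (⟨3 * x.1 + 2, by omega⟩ : Fin (3 * M)) = o := Fin.ext e1.symm
      rcases nb_Y h3 with rfl | rfl
      · exact absurd (congrArg Vx.P eo) hw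
      · rcases nb_Y h4 with rfl | rfl
        · exact absurd (congrArg Vx.P eo) hw'
        · rfl
    · exfalso
      revert hl; split <;> intro hl <;> exact absurd hl (by decide)
    · exfalso
      revert hl; split <;> intro hl <;> exact absurd hl (by decide)
    · exfalso
      revert hl; split <;> intro hl <;> exact absurd hl (by decide)
    · have e1 : o = x ∨ o = y := h1.elim (fun h => h.elim) id
      have e2 : o = x' ∨ o = y' := h2.elim (fun h => h.elim) id
      by_cases k1 : x = o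
      · subst k1
        rw [if_pos rfl] at hl
        by_cases k2 : x' = x
        · subst k2
          obtain rfl := nxt_unique hx hx'
          rcases nb_L h3 with rfl | rfl
          · exact absurd rfl hw
          · rcases nb_L h4 with rfl | rfl
            · exact absurd rfl hw'
            · rfl
        · rw [if_neg k2] at hl
          exact absurd hl (by decide)
      · rw [if_neg k1] at hl
        by_cases k2 : x' = o
        · rw [if_pos k2] at hl
          exact absurd hl (by decide)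
        · obtain rfl : o = y := e1.resolve_left fun h => k1 h.symm
          obtain rfl : o = y' := e2.resolve_left fun h => k2 h.symm
          obtain rfl := nxt_unique' hx hx'
          rcases nb_L h3 with rfl | rfl
          · rcases nb_L h4 with rfl | rfl
            · rfl
            · exact absurd rfl hw'
          · exact absurd rfl hw
  · rcases u with x | x | ⟨x, j⟩ | ⟨x, y, hx, j⟩ <;>
      rcases u' with x' | x' | ⟨x', j'⟩ | ⟨x', y', hx', j'⟩ <;>
      try exact (h1.elim id id).elim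
    all_goals try exact (h2.elim id id).elim
    all_goals simp only [leg] at hl
    · exfalso
      have e1 : x.1 = 3 * c.1 ∨ x.1 = 3 * c.1 + 1 := h1.elim id fun h => h.elim
      have e2 : x'.1 = 3 * c.1 ∨ x'.1 = 3 * c.1 + 1 := h2.elim id fun h => h.elim
      by_cases k1 : x.1 = 3 * c.1 <;> by_cases k2 : x'.1 = 3 * c.1
      · exact hne (congrArg Vx.P (Fin.ext (k1.trans k2.symm)))
      · rw [if_pos k1, if_neg k2] at hl
        exact absurd hl (by decide)
      · rw [if_neg k1, if_pos k2] at hl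
        exact absurd hl (by decide)
      · exact hne (congrArg Vx.P (Fin.ext (by omega)))
    · exfalso
      revert hl; split <;> intro hl <;> exact absurd hl (by decide)
    · exfalso
      revert hl; split <;> intro hl <;> exact absurd hl (by decide)
    · have e1 : c = x := h1.elim (fun h => h.elim) id
      have e2 : c = x' := h2.elim (fun h => h.elim) id
      subst e1 e2
      rcases nb_Y h3 with rfl | rfl
      · rcases nb_Y h4 with rfl | rfl
        · rfl
        · exact absurd rfl hw'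
      · exact absurd rfl hw
  · exfalso
    rcases nb_Y h1 with rfl | rfl <;> rcases nb_Y h2 with rfl | rfl
    · exact hne rfl
    · exact absurd hl (by simp [leg])
    · exact absurd hl (by simp [leg])
    · exact hne rfl
  · exfalso
    have hoo : o' ≠ o := (ne_of_lt h.2.1).symm
    rcases nb_L h1 with rfl | rfl <;> rcases nb_L h2 with rfl | rfl
    · exact hne rfl
    · exact absurd hl (by simp [leg, hoo])
    · exact absurd hl (by simp [leg, hoo])
    · exact hne rfl

theorem Gr_free : S2222.Free (Gr nm) := by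
  rintro ⟨f⟩
  have inj := f.injective
  have a1 : ∀ i, (Gr nm).Adj (f none) (f (some (i, false))) := fun i =>
    f.toHom.map_adj (by simp [S2222])
  have a2 : ∀ i, (Gr nm).Adj (f (some (i, false))) (f (some (i, true))) := fun i =>
    f.toHom.map_adj (by simp [S2222])
  obtain ⟨i, j, hij, hl⟩ := Fintype.exists_ne_map_eq_of_card_lt
    (fun i : Fin 4 => leg (f none) (f (some (i, false)))) (by simp)
  have h := leg_inj (a1 i) (a1 j) (fun h => hij (by simpa using inj h)) hl (a2 i) (a2 j)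
    (fun h => by simpa using inj h) (fun h => by simpa using inj h)
  exact hij (by simpa using inj h)

/-! ### Matching cuts and assignments -/

/-- The assignment satisfies the constraints. -/
def Good (nm : Fin (3 * M) → Nm) (s : Nm → Bool) : Prop :=
  (∃ o o', s (nm o) ≠ s (nm o')) ∧ ∀ c : Fin M,
    s (nm ⟨3 * c.1, by omega⟩) = s (nm ⟨3 * c.1 + 2, by omega⟩) ∨
    s (nm ⟨3 * c.1 + 1, by omega⟩) = s (nm ⟨3 * c.1 + 2, by omega⟩)

theorem name_L {o o' : Fin (3 * M)} {h : Nxt nm o o'} {i : Fin 3} {w : Vx nm}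
    (hw : (Gr nm).Adj (.L o o' h i) w) : name w = nm o := by
  rcases nb_L hw with rfl | rfl
  · rfl
  · exact h.1.symm

theorem name_Y {c : Fin M} {i : Fin 3} {w : Vx nm} (hw : (Gr nm).Adj (.Y c i) w) :
    name w = nm ⟨3 * c.1 + 2, by omega⟩ := by
  rcases nb_Y hw with rfl | rfl <;> rfl

theorem cut_of_good {s : Nm → Bool} (h : Good nm s) :
    IsMatchingCut (Gr nm) {v | s (name v) = true} := by
  obtain ⟨⟨o, o', ho⟩, hc⟩ := h
  have ne : ∀ {u v : Vx nm}, (u ∈ {v : Vx nm | s (name v) = true} ↔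
      v ∉ {v : Vx nm | s (name v) = true}) → s (name u) ≠ s (name v) := by
    intro u v huv h
    simp only [Set.mem_ofPred_eq] at huv
    rw [h] at huv
    exact iff_not_self huv
  refine ⟨?_, ?_, ?_⟩
  · by_cases k : s (nm o) = true
    · exact ⟨.P o, k⟩
    · refine ⟨.P o', ?_⟩
      show s (nm o') = true
      cases h1 : s (nm o') <;> simp_all
  · by_cases k : s (nm o) = true
    · refine ⟨.P o', ?_⟩
      show ¬ s (nm o') = true
      cases h1 : s (nm o') <;> simp_all
    · exact ⟨.P o, k⟩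
  · intro u v w h1 h2 h3 h4
    have n1 := ne h3
    have n2 := ne h4
    rcases u with x | c | ⟨c, i⟩ | ⟨x, y, hx, i⟩
    · have key : ∀ {v : Vx nm}, (Gr nm).Adj (.P x) v → s (name (.P x : Vx nm)) ≠ s (name v) →
          ∃ c, v = .Z c ∧ (x.1 = 3 * c.1 ∨ x.1 = 3 * c.1 + 1) := by
        intro v hv hn
        rcases v with y | c | ⟨c, i⟩ | ⟨y, z, hy, i⟩
        · exact (hv.elim id id).elim
        · exact ⟨c, rfl, hv.elim (fun h => h.elim) id⟩
        · exact absurd (congrArg s (name_Y hv.symm)) hn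
        · exact absurd (congrArg s (name_L hv.symm)) hn
      obtain ⟨c, rfl, hc1⟩ := key h1 n1
      obtain ⟨c', rfl, hc2⟩ := key h2 n2
      exact congrArg Vx.Z (Fin.ext (by omega))
    · have key : ∀ {v : Vx nm}, (Gr nm).Adj (.Z c) v → s (name (.Z c : Vx nm)) ≠ s (name v) →
          v = .P ⟨3 * c.1, by omega⟩ ∨ v = .P ⟨3 * c.1 + 1, by omega⟩ := by
        intro v hv hn
        rcases v with y | c' | ⟨c', i⟩ | ⟨y, z, hy, i⟩
        · have e : y.1 = 3 * c.1 ∨ y.1 = 3 * c.1 + 1 := hv.elim id fun h => h.elim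
          exact e.imp (fun e => congrArg Vx.P (Fin.ext e)) (fun e => congrArg Vx.P (Fin.ext e))
        · exact (hv.elim id id).elim
        · exact absurd (congrArg s (name_Y hv.symm)) hn
        · exact (hv.elim id id).elim
      rcases key h1 n1 with rfl | rfl <;> rcases key h2 n2 with rfl | rfl
      · rfl
      · rcases hc c with e | e
        · exact absurd e.symm n1
        · exact absurd e.symm n2
      · rcases hc c with e | e
        · exact absurd e.symm n2
        · exact absurd e.symm n1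
      · rfl
    · exact absurd (congrArg s (name_Y h1)).symm n1
    · exact absurd (congrArg s (name_L h1)).symm n1

/-- The two sides of a thick link are on the same side of the cut. -/
theorem thick {V : Type} {G : SimpleGraph V} {A : Set V} (h : IsMatchingCut G A) {p q : V}
    {m : Fin 3 → V} (hm : Function.Injective m) (h1 : ∀ i, G.Adj p (m i))
    (h2 : ∀ i, G.Adj (m i) q) (hpq : p ≠ q) : (p ∈ A ↔ q ∈ A) ∧ ∀ i, (m i ∈ A ↔ p ∈ A) := by
  have hM := h.2.2
  have c1 : ∀ i j, i ≠ j → ¬ ((p ∈ A ↔ m i ∉ A) ∧ (p ∈ A ↔ m j ∉ A)) := fun i j hij hc =>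
    hij (hm (hM p (m i) (m j) (h1 i) (h1 j) hc.1 hc.2))
  have c2 : ∀ i j, i ≠ j → ¬ ((q ∈ A ↔ m i ∉ A) ∧ (q ∈ A ↔ m j ∉ A)) := fun i j hij hc =>
    hij (hm (hM q (m i) (m j) (h2 i).symm (h2 j).symm hc.1 hc.2))
  have c3 : ∀ i, ¬ ((m i ∈ A ↔ p ∉ A) ∧ (m i ∈ A ↔ q ∉ A)) := fun i hc =>
    hpq (hM (m i) p q (h1 i).symm (h2 i) hc.1 hc.2)
  have a1 := c1 0 1 (by decide)
  have a2 := c1 0 2 (by decide)
  have a3 := c1 1 2 (by decide)
  have b1 := c2 0 1 (by decide)
  have b2 := c2 0 2 (by decide)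
  have b3 := c2 1 2 (by decide)
  have d0 := c3 0
  have d1 := c3 1
  have d2 := c3 2
  have e : p ∈ A ↔ q ∈ A := by
    by_cases k1 : p ∈ A <;> by_cases k2 : q ∈ A <;> by_cases k3 : m 0 ∈ A <;>
      by_cases k4 : m 1 ∈ A <;> by_cases k5 : m 2 ∈ A <;> simp_all
  refine ⟨e, fun i => ?_⟩
  have := c3 i
  by_cases k1 : p ∈ A <;> by_cases k2 : q ∈ A <;> by_cases k3 : m i ∈ A <;> simp_all

theorem nxt_all {p : Fin (3 * M) → Prop} (h : ∀ o o', Nxt nm o o' → (p o ↔ p o')) :
    ∀ o o', nm o = nm o' → (p o ↔ p o') := by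
  have key : ∀ n : ℕ, ∀ o o' : Fin (3 * M), o'.1 - o.1 = n → o < o' → nm o = nm o' →
      (p o ↔ p o') := by
    intro n
    induction n using Nat.strong_induction_on with
    | _ n ih =>
      intro o o' hn hlt hnm
      by_cases hN : Nxt nm o o'
      · exact h _ _ hN
      · have : ∃ k, o < k ∧ k < o' ∧ nm k = nm o := by
          by_contra hc
          exact hN ⟨hnm, hlt, fun k h1 h2 h3 => hc ⟨k, h1, h2, h3⟩⟩
        obtain ⟨k, h1, h2, h3⟩ := this
        rw [Fin.lt_def] at h1 h2 hlt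
        exact (ih (k.1 - o.1) (by omega) o k rfl h1 h3.symm).trans
          (ih (o'.1 - k.1) (by omega) k o' rfl h2 (h3.trans hnm))
  intro o o' hnm
  rcases lt_trichotomy o o' with hlt | rfl | hlt
  · exact key _ _ _ rfl hlt hnm
  · rfl
  · exact (key _ _ _ rfl hlt hnm.symm).symm

theorem good_of_cut {A : Set (Vx nm)} (h : IsMatchingCut (Gr nm) A) : ∃ s, Good nm s := by
  classical
  have hL : ∀ o o' (hn : Nxt nm o o'), ((Vx.P o : Vx nm) ∈ A ↔ Vx.P o' ∈ A) ∧
      ∀ i, (Vx.L o o' hn i ∈ A ↔ (Vx.P o : Vx nm) ∈ A) := fun o o' hn =>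
    thick h (m := fun i => .L o o' hn i) (fun i j hij => by simpa using hij)
      (fun i => Or.inr (Or.inl rfl)) (fun i => Or.inl (Or.inr rfl))
      (fun e => (ne_of_lt hn.2.1) (by simpa using e))
  have hY : ∀ c : Fin M, ((Vx.P ⟨3 * c.1 + 2, by omega⟩ : Vx nm) ∈ A ↔ Vx.Z c ∈ A) ∧
      ∀ i, (Vx.Y c i ∈ A ↔ (Vx.P ⟨3 * c.1 + 2, by omega⟩ : Vx nm) ∈ A) := fun c =>
    thick h (m := fun i => .Y c i) (fun i j hij => by simpa using hij)
      (fun i => Or.inr rfl) (fun i => Or.inl rfl) (fun e => by simp at e)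
  have hP : ∀ o o', nm o = nm o' → ((Vx.P o : Vx nm) ∈ A ↔ Vx.P o' ∈ A) :=
    nxt_all fun o o' hn => (hL o o' hn).1
  refine ⟨fun x => decide (∃ o, nm o = x ∧ (Vx.P o : Vx nm) ∈ A), ?_, ?_⟩
  · have hs : ∀ o, decide (∃ o', nm o' = nm o ∧ (Vx.P o' : Vx nm) ∈ A) =
        decide ((Vx.P o : Vx nm) ∈ A) := by
      intro o
      rw [decide_eq_decide]
      exact ⟨fun ⟨o', h1, h2⟩ => (hP o' o h1).1 h2, fun h => ⟨o, rfl, h⟩⟩
    simp only [hs]
    by_contra hc
    push Not at hc
    have hall : ∀ o o', ((Vx.P o : Vx nm) ∈ A ↔ Vx.P o' ∈ A) := fun o o' =>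
      decide_eq_decide.1 (hc o o')
    obtain ⟨⟨a, ha⟩, ⟨b, hb⟩, -⟩ := h
    have rep : ∀ v : Vx nm, ∃ o, (v ∈ A ↔ (Vx.P o : Vx nm) ∈ A) := by
      rintro (o | c | ⟨c, i⟩ | ⟨o, o', hn, i⟩)
      · exact ⟨o, Iff.rfl⟩
      · exact ⟨_, (hY c).1.symm⟩
      · exact ⟨_, (hY c).2 i⟩
      · exact ⟨_, (hL o o' hn).2 i⟩
    obtain ⟨o, ho⟩ := rep a
    obtain ⟨o', ho'⟩ := rep b
    exact hb (ho'.2 ((hall o o').1 (ho.1 ha)))
  · intro c
    have hs : ∀ o, decide (∃ o', nm o' = nm o ∧ (Vx.P o' : Vx nm) ∈ A) =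
        decide ((Vx.P o : Vx nm) ∈ A) := by
      intro o
      rw [decide_eq_decide]
      exact ⟨fun ⟨o', h1, h2⟩ => (hP o' o h1).1 h2, fun h => ⟨o, rfl, h⟩⟩
    simp only [hs]
    by_contra hc
    push Not at hc
    obtain ⟨n1, n2⟩ := hc
    rw [Ne, decide_eq_decide] at n1 n2
    have e := (hY c).1
    have := h.2.2 (.Z c) (.P ⟨3 * c.1, by omega⟩) (.P ⟨3 * c.1 + 1, by omega⟩)
      (Or.inl (Or.inl rfl)) (Or.inl (Or.inr rfl)) (by tauto) (by tauto)
    simp at this

theorem cut_iff : (∃ A, IsMatchingCut (Gr nm) A) ↔ ∃ s, Good nm s :=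
  ⟨fun ⟨_, h⟩ => good_of_cut h, fun ⟨_, h⟩ => ⟨_, cut_of_good h⟩⟩

end Pool.Agent.R892.MC
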