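import Pool.Agent.R892.MC.Gadget
import Pool.Agent.H671R2.GraphEnc
import Pool.Agent.H671R2.PolyAuto
import Pool.Agent.H648R3.WC.Nae

/-!
# Matching cuts: labels of the vertices, and the source problem
-/

set_option autoImplicit false
set_option linter.unusedSectionVars false
set_option linter.unusedSimpArgs false

namespace Pool.Agent.R892.MC

open Pool.Agent.NPC Pool.Agent.NPC.R671 Pool.Agent.NPC.WC648 SimpleGraph

/-- The names. -/
abbrev Nm : Type := ℕ × NV

/-- The constraints: `(x, y, z)` says that `x = z` or `y = z`. -/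
abbrev Cs : Type := List (Nm × Nm × Nm)

/-- The name of a copy. -/
def nmL (C : Cs) (o : ℕ) : Nm :=
  bif decide (o % 3 = 0) then (C.getD (o / 3) ((0, 0, 0, false), (0, 0, 0, false), 0, 0, 0, false)).1
  else bif decide (o % 3 = 1) then
    (C.getD (o / 3) ((0, 0, 0, false), (0, 0, 0, false), 0, 0, 0, false)).2.1
  else (C.getD (o / 3) ((0, 0, 0, false), (0, 0, 0, false), 0, 0, 0, false)).2.2

/-- The name of a copy, typed. -/
def nmF (C : Cs) (o : Fin (3 * C.length)) : Nm := nmL C o.1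

theorem nm_key (C : Cs) (i : Fin C.length) :
    nmF C ⟨3 * i.1, by omega⟩ = C[i].1 ∧ nmF C ⟨3 * i.1 + 1, by omega⟩ = C[i].2.1 ∧
      nmF C ⟨3 * i.1 + 2, by omega⟩ = C[i].2.2 := by
  have h1 : (3 * i.1) / 3 = i.1 := by omega
  have h2 : (3 * i.1 + 1) / 3 = i.1 := by omega
  have h3 : (3 * i.1 + 2) / 3 = i.1 := by omega
  have h4 : (3 * i.1) % 3 = 0 := by omega
  have h5 : (3 * i.1 + 1) % 3 = 1 := by omega
  have h6 : (3 * i.1 + 2) % 3 = 2 := by omega
  unfold nmF nmL
  simp only [h1, h2, h3, h4, h5, h6]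
  rw [List.getD_eq_getElem _ _ i.2]
  exact ⟨rfl, rfl, rfl⟩

theorem nm_cases (C : Cs) (o : Fin (3 * C.length)) :
    ∃ c ∈ C, nmF C o = c.1 ∨ nmF C o = c.2.1 ∨ nmF C o = c.2.2 := by
  have ho : o.1 / 3 < C.length := by have := o.2; omega
  obtain ⟨k1, k2, k3⟩ := nm_key C ⟨o.1 / 3, ho⟩
  refine ⟨C[o.1 / 3], List.getElem_mem _, ?_⟩
  have : o.1 % 3 = 0 ∨ o.1 % 3 = 1 ∨ o.1 % 3 = 2 := by omega
  rcases this with h | h | h
  · left
    rw [← show (C[(⟨o.1 / 3, ho⟩ : Fin C.length)]).1 = (C[o.1 / 3]).1 from rfl, ← k1]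
    exact congrArg _ (Fin.ext (by simp only; omega))
  · right; left
    rw [← show (C[(⟨o.1 / 3, ho⟩ : Fin C.length)]).2.1 = (C[o.1 / 3]).2.1 from rfl, ← k2]
    exact congrArg _ (Fin.ext (by simp only; omega))
  · right; right
    rw [← show (C[(⟨o.1 / 3, ho⟩ : Fin C.length)]).2.2 = (C[o.1 / 3]).2.2 from rfl, ← k3]
    exact congrArg _ (Fin.ext (by simp only; omega))

/-- The constraints have an assignment that is not constant. -/
def SolC (C : Cs) : Prop :=
  ∃ s : Nm → Bool, (∃ o o', s (nmF C o) ≠ s (nmF C o')) ∧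
    ∀ c ∈ C, s c.1 = s c.2.2 ∨ s c.2.1 = s c.2.2

theorem solC_iff (C : Cs) : SolC C ↔ ∃ s, Good (nmF C) s := by
  refine exists_congr fun s => and_congr Iff.rfl ?_
  constructor
  · intro h i
    obtain ⟨k1, k2, k3⟩ := nm_key C i
    rw [k1, k2, k3]
    exact h _ (List.getElem_mem _)
  · intro h c hc
    obtain ⟨i, hi, rfl⟩ := List.getElem_of_mem hc
    obtain ⟨k1, k2, k3⟩ := nm_key C ⟨i, hi⟩
    have := h ⟨i, hi⟩
    rw [k1, k2, k3] at this
    exact this

/-! ### The reduction from not-all-equal satisfiability -/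

/-- The name of the truth value true. -/
def tT : Nm := (0, 0, 0, false)
/-- The name of the truth value false. -/
def tF : Nm := (1, 0, 0, false)
/-- The name of a variable. -/
def ps (v : NV) : Nm := (2, v)
/-- The name of the negation of a variable. -/
def ng (v : NV) : Nm := (3, v)

/-- The constraints of a variable. -/
def vc (v : NV) : Cs := [(ps v, ng v, tT), (ps v, ng v, tF), (tF, tT, ps v), (tF, tT, ng v)]

/-- The constraints of a clause. -/
def cc (t : NV × NV × NV) : Cs :=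
  vc t.1 ++ (vc t.2.1 ++ (vc t.2.2 ++ [(ps t.1, ps t.2.1, ng t.2.2)]))

/-- The constraints of a formula. -/
def toC (φ : List (NV × NV × NV)) : Cs := (tT, tF, tT) :: φ.flatMap cc

theorem mem_toC {φ : List (NV × NV × NV)} {c : Nm × Nm × Nm} : c ∈ toC φ ↔ c = (tT, tF, tT) ∨
    ∃ t ∈ φ, c ∈ vc t.1 ∨ c ∈ vc t.2.1 ∨ c ∈ vc t.2.2 ∨ c = (ps t.1, ps t.2.1, ng t.2.2) := by
  unfold toC cc
  simp only [List.mem_cons, List.mem_flatMap, List.mem_append, List.not_mem_nil, or_false]

theorem toC_iff (φ : List (NV × NV × NV)) : NAE φ ↔ SolC (toC φ) := by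
  constructor
  · rintro ⟨τ, hτ⟩
    refine ⟨fun x => if x.1 = 0 then true else if x.1 = 1 then false else if x.1 = 2 then τ x.2
      else !τ x.2, ?_, ?_⟩
    · have hlen : 0 < (toC φ).length := by unfold toC; simp
      obtain ⟨k1, k2, k3⟩ := nm_key (toC φ) ⟨0, hlen⟩
      refine ⟨⟨3 * 0, by omega⟩, ⟨3 * 0 + 1, by omega⟩, ?_⟩
      rw [k1, k2]
      show (true : Bool) ≠ false
      decide
    · have hv : ∀ (v : NV) (c : Nm × Nm × Nm), c ∈ vc v →
          (fun x : Nm => if x.1 = 0 then true else if x.1 = 1 then false else if x.1 = 2 then τ x.2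
            else !τ x.2) c.1 = (fun x : Nm => if x.1 = 0 then true else if x.1 = 1 then false else
            if x.1 = 2 then τ x.2 else !τ x.2) c.2.2 ∨
          (fun x : Nm => if x.1 = 0 then true else if x.1 = 1 then false else if x.1 = 2 then τ x.2
            else !τ x.2) c.2.1 = (fun x : Nm => if x.1 = 0 then true else if x.1 = 1 then false else
            if x.1 = 2 then τ x.2 else !τ x.2) c.2.2 := by
        intro v c hc
        unfold vc at hc
        simp only [List.mem_cons, List.not_mem_nil, or_false] at hc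
        rcases hc with rfl | rfl | rfl | rfl
        · show τ v = true ∨ (!τ v) = true
          cases τ v <;> simp
        · show τ v = false ∨ (!τ v) = false
          cases τ v <;> simp
        · show false = τ v ∨ true = τ v
          cases τ v <;> simp
        · show false = (!τ v) ∨ true = (!τ v)
          cases τ v <;> simp
      intro c hc
      rcases mem_toC.1 hc with rfl | ⟨t, ht, h | h | h | rfl⟩
      · left; rfl
      · exact hv _ _ h
      · exact hv _ _ h
      · exact hv _ _ h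
      · have := hτ t ht
        show τ t.1 = (!τ t.2.2) ∨ τ t.2.1 = (!τ t.2.2)
        revert this
        cases τ t.1 <;> cases τ t.2.1 <;> cases τ t.2.2 <;> simp
  · rintro ⟨s, ⟨o, o', hne⟩, hs⟩
    have hs' : ∀ x y z : Nm, (x, y, z) ∈ toC φ → s x = s z ∨ s y = s z := fun x y z h => hs _ h
    have hTF : s tT ≠ s tF := by
      intro hTF
      have hv : ∀ v : NV, (∀ c ∈ vc v, c ∈ toC φ) → s (ps v) = s tT ∧ s (ng v) = s tT := by
        intro v hv
        have h3 := hs' _ _ _ (hv (tF, tT, ps v) (by simp [vc]))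
        have h4 := hs' _ _ _ (hv (tF, tT, ng v) (by simp [vc]))
        rw [← hTF, or_self] at h3 h4
        exact ⟨h3.symm, h4.symm⟩
      have hall : ∀ o, s (nmF (toC φ) o) = s tT := by
        intro o
        obtain ⟨c, hc, h⟩ := nm_cases (toC φ) o
        have hvc : ∀ (v : NV) (c : Nm × Nm × Nm), (∀ c ∈ vc v, c ∈ toC φ) → c ∈ vc v →
            s c.1 = s tT ∧ s c.2.1 = s tT ∧ s c.2.2 = s tT := by
          intro v c hv' hc
          obtain ⟨h1, h2⟩ := hv v hv'
          unfold vc at hc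
          simp only [List.mem_cons, List.not_mem_nil, or_false] at hc
          rcases hc with rfl | rfl | rfl | rfl
          · exact ⟨h1, h2, rfl⟩
          · exact ⟨h1, h2, hTF.symm⟩
          · exact ⟨hTF.symm, rfl, h1⟩
          · exact ⟨hTF.symm, rfl, h2⟩
        have h3 : s c.1 = s tT ∧ s c.2.1 = s tT ∧ s c.2.2 = s tT := by
          rcases mem_toC.1 hc with rfl | ⟨t, ht, h | h | h | rfl⟩
          · exact ⟨rfl, hTF.symm, rfl⟩
          · exact hvc t.1 c (fun c hc => mem_toC.2 (Or.inr ⟨t, ht, Or.inl hc⟩)) h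
          · exact hvc t.2.1 c (fun c hc => mem_toC.2 (Or.inr ⟨t, ht, Or.inr (Or.inl hc)⟩)) h
          · exact hvc t.2.2 c (fun c hc => mem_toC.2 (Or.inr ⟨t, ht, Or.inr (Or.inr (Or.inl hc))⟩)) h
          · exact ⟨(hv t.1 (fun c hc => mem_toC.2 (Or.inr ⟨t, ht, Or.inl hc⟩))).1,
              (hv t.2.1 (fun c hc => mem_toC.2 (Or.inr ⟨t, ht, Or.inr (Or.inl hc)⟩))).1,
              (hv t.2.2 (fun c hc => mem_toC.2 (Or.inr ⟨t, ht, Or.inr (Or.inr (Or.inl hc))⟩))).2⟩
        rcases h with h | h | h <;> rw [h]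
        · exact h3.1
        · exact h3.2.1
        · exact h3.2.2
      exact hne ((hall o).trans (hall o').symm)
    refine ⟨fun v => s (ps v), fun t ht hc => ?_⟩
    have hm := fun c (hc : c ∈ vc t.2.2) => hs' c.1 c.2.1 c.2.2
      (mem_toC.2 (Or.inr ⟨t, ht, Or.inr (Or.inr (Or.inl hc))⟩))
    have h1 := hm (ps t.2.2, ng t.2.2, tT) (by simp [vc])
    have h2 := hm (ps t.2.2, ng t.2.2, tF) (by simp [vc])
    have h3 := hs' (ps t.1) (ps t.2.1) (ng t.2.2)
      (mem_toC.2 (Or.inr ⟨t, ht, Or.inr (Or.inr (Or.inr rfl))⟩))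
    simp only at hc h1 h2 h3
    revert hTF hc h1 h2 h3
    cases s tT <;> cases s tF <;> cases s (ps t.2.2) <;> cases s (ng t.2.2) <;>
      cases s (ps t.1) <;> cases s (ps t.2.1) <;> simp

/-! ### Labels -/

/-- Labels: kind and three numbers. -/
abbrev Lab : Type := ℕ × ℕ × ℕ × ℕ

variable {M : ℕ} {nm : Fin (3 * M) → Nm}

/-- The label of a vertex. -/
def lab : Vx nm → Lab
  | .P o => (0, o.1, 0, 0)
  | .Z c => (1, c.1, 0, 0)
  | .Y c i => (2, c.1, i.1, 0)
  | .L o o' _ i => (3, o.1, o'.1, i.1)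

theorem lab_injective : Function.Injective (lab (nm := nm)) := by
  intro u v h
  rcases u with o | c | ⟨c, i⟩ | ⟨o, o', hn, i⟩ <;>
    rcases v with x | y | ⟨y, j⟩ | ⟨x, x', hn', j⟩ <;>
    simp only [lab, Prod.mk.injEq, OfNat.ofNat_ne_zero, OfNat.zero_ne_ofNat, OfNat.one_ne_ofNat,
      OfNat.ofNat_ne_one, zero_ne_one, one_ne_zero, Nat.reduceEqDiff, false_and, true_and,
      and_true] at h
  · rw [Fin.ext h]
  · rw [Fin.ext h]
  · rw [Fin.ext h.1, Fin.ext h.2]
  · obtain ⟨h1, h2, h3⟩ := h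
    obtain rfl := Fin.ext h1
    obtain rfl := Fin.ext h2
    obtain rfl := Fin.ext h3
    rfl

/-- The adjacencies of labels, in one direction. -/
def rl (a b : Lab) : Bool :=
  bif decide (a.1 = 3) && decide (b.1 = 0) then
    decide (b.2.1 = a.2.1) || decide (b.2.1 = a.2.2.1)
  else bif decide (a.1 = 2) && decide (b.1 = 0) then decide (b.2.1 = 3 * a.2.1 + 2)
  else bif decide (a.1 = 2) && decide (b.1 = 1) then decide (b.2.1 = a.2.1)
  else bif decide (a.1 = 1) && decide (b.1 = 0) then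
    decide (b.2.1 = 3 * a.2.1) || decide (b.2.1 = 3 * a.2.1 + 1)
  else false

theorem rl_lab (u v : Vx nm) : rl (lab u) (lab v) = true ↔ R u v := by
  rcases u with o | c | ⟨c, i⟩ | ⟨o, o', hn, i⟩ <;>
    rcases v with x | y | ⟨y, j⟩ | ⟨x, x', hn', j⟩
  · exact ⟨fun h => Bool.noConfusion h, fun h => h.elim⟩
  · exact ⟨fun h => Bool.noConfusion h, fun h => h.elim⟩
  · exact ⟨fun h => Bool.noConfusion h, fun h => h.elim⟩
  · exact ⟨fun h => Bool.noConfusion h, fun h => h.elim⟩
  · show (decide (x.1 = 3 * c.1) || decide (x.1 = 3 * c.1 + 1)) = true ↔ _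
    simp only [Bool.or_eq_true, decide_eq_true_eq, R]
  · exact ⟨fun h => Bool.noConfusion h, fun h => h.elim⟩
  · exact ⟨fun h => Bool.noConfusion h, fun h => h.elim⟩
  · exact ⟨fun h => Bool.noConfusion h, fun h => h.elim⟩
  · exact decide_eq_true_iff
  · exact decide_eq_true_iff.trans Fin.ext_iff.symm
  · exact ⟨fun h => Bool.noConfusion h, fun h => h.elim⟩
  · exact ⟨fun h => Bool.noConfusion h, fun h => h.elim⟩
  · show (decide (x.1 = o.1) || decide (x.1 = o'.1)) = true ↔ _
    simp only [Bool.or_eq_true, decide_eq_true_eq, R, Fin.ext_iff]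
  · exact ⟨fun h => Bool.noConfusion h, fun h => h.elim⟩
  · exact ⟨fun h => Bool.noConfusion h, fun h => h.elim⟩
  · exact ⟨fun h => Bool.noConfusion h, fun h => h.elim⟩

/-- Adjacency of labels. -/
def ad (a b : Lab) : Bool := !(decide (a = b)) && (rl a b || rl b a)

theorem ad_symm (a b : Lab) : ad a b = ad b a := by
  unfold ad
  rw [Bool.or_comm, decide_eq_decide.2 (eq_comm (a := a) (b := b))]

theorem ad_irrefl (a : Lab) : ad a a = false := by
  unfold ad
  rw [decide_eq_true rfl]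
  rfl

theorem ad_lab (u v : Vx nm) : ad (lab u) (lab v) = true ↔ (Gr nm).Adj u v := by
  show _ ↔ R u v ∨ R v u
  unfold ad
  rw [Bool.and_eq_true, Bool.or_eq_true, rl_lab, rl_lab]
  constructor
  · exact fun h => h.2
  · intro h
    refine ⟨?_, h⟩
    have hne : u ≠ v := by
      rintro rfl
      exact (Gr nm).irrefl h
    have : lab u ≠ lab v := fun h => hne (lab_injective h)
    rw [decide_eq_false this]
    rfl

/-- The pairs of consecutive copies. -/
def SL (C : Cs) : List (ℕ × ℕ) :=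
  ((List.range (3 * C.length)) ×ˢ (List.range (3 * C.length))).filter fun p =>
    decide (nmL C p.1 = nmL C p.2) && (decide (p.1 < p.2) &&
      (List.range (3 * C.length)).all fun k =>
        !(decide (p.1 < k) && (decide (k < p.2) && decide (nmL C k = nmL C p.1))))

theorem mem_SL (C : Cs) (o o' : Fin (3 * C.length)) :
    (o.1, o'.1) ∈ SL C ↔ Nxt (nmF C) o o' := by
  unfold SL Nxt nmF
  rw [List.mem_filter, List.mem_product]
  simp only [List.mem_range, o.2, o'.2, and_self, true_and, Bool.and_eq_true, decide_eq_true_eq,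
    List.all_eq_true, Bool.not_eq_true', Bool.and_eq_false_iff, decide_eq_false_iff_not]
  refine and_congr Iff.rfl (and_congr Iff.rfl ?_)
  constructor
  · intro h k h1 h2 h3
    rcases h k.1 k.2 with h | h | h
    · exact h h1
    · exact h h2
    · exact h h3
  · intro h k hk
    by_cases h1 : o.1 < k
    · by_cases h2 : k < o'.1
      · exact Or.inr (Or.inr (h ⟨k, hk⟩ h1 h2))
      · exact Or.inr (Or.inl h2)
    · exact Or.inl h1

/-- Three numbers. -/
def r3 : List ℕ := [0, 1, 2]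

/-- The labels of kind `0`. -/
def v0 (C : Cs) : List Lab := (List.range (3 * C.length)).map fun o => (0, o, 0, 0)

/-- The labels of kind `1`. -/
def v1 (C : Cs) : List Lab := (List.range C.length).map fun c => (1, c, 0, 0)

/-- The labels of kind `2`. -/
def v2 (C : Cs) : List Lab := ((List.range C.length) ×ˢ r3).map fun p => (2, p.1, p.2, 0)

/-- The labels of kind `3`. -/
def v3 (C : Cs) : List Lab := (SL C ×ˢ r3).map fun p => (3, p.1.1, p.1.2, p.2)

/-- All labels. -/
def vl (C : Cs) : List Lab := v0 C ++ (v1 C ++ (v2 C ++ v3 C))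

theorem nodup_r3 : r3.Nodup := by decide

theorem mem_r3 (i : ℕ) : i ∈ r3 ↔ i < 3 := by
  unfold r3
  simp only [List.mem_cons, List.not_mem_nil, or_false]
  omega

theorem nodup_vl (C : Cs) : (vl C).Nodup := by
  have n0 : (v0 C).Nodup := List.Nodup.map (fun a b h => by
    simp only [Prod.mk.injEq, and_true, true_and] at h
    exact h) List.nodup_range
  have n1 : (v1 C).Nodup := List.Nodup.map (fun a b h => by
    simp only [Prod.mk.injEq, and_true, true_and] at h
    exact h) List.nodup_range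
  have n2 : (v2 C).Nodup := List.Nodup.map (fun a b h => by
    simp only [Prod.mk.injEq, and_true, true_and] at h
    exact Prod.ext h.1 h.2) (List.nodup_range.product nodup_r3)
  have n3 : (v3 C).Nodup := List.Nodup.map (fun a b h => by
    simp only [Prod.mk.injEq, true_and] at h
    exact Prod.ext (Prod.ext h.1 h.2.1) h.2.2)
    (((List.nodup_range.product List.nodup_range).filter _).product nodup_r3)
  have k0 : ∀ z ∈ v0 C, z.1 = 0 := by
    intro z hz; obtain ⟨p, -, rfl⟩ := List.mem_map.1 hz; rfl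
  have k1 : ∀ z ∈ v1 C, z.1 = 1 := by
    intro z hz; obtain ⟨p, -, rfl⟩ := List.mem_map.1 hz; rfl
  have k2 : ∀ z ∈ v2 C, z.1 = 2 := by
    intro z hz; obtain ⟨p, -, rfl⟩ := List.mem_map.1 hz; rfl
  have k3 : ∀ z ∈ v3 C, z.1 = 3 := by
    intro z hz; obtain ⟨p, -, rfl⟩ := List.mem_map.1 hz; rfl
  unfold vl
  refine n0.append (n1.append (n2.append n3 ?_) ?_) ?_
  · intro z h h'
    have := k2 z h; have := k3 z h'; omega
  · intro z h h'
    have := k1 z h
    rcases List.mem_append.1 h' with h' | h'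
    · have := k2 z h'; omega
    · have := k3 z h'; omega
  · intro z h h'
    have := k0 z h
    rcases List.mem_append.1 h' with h' | h'
    · have := k1 z h'; omega
    rcases List.mem_append.1 h' with h' | h'
    · have := k2 z h'; omega
    · have := k3 z h'; omega

theorem mem_vl (C : Cs) (z : Lab) : z ∈ vl C ↔ ∃ x : Vx (nmF C), lab x = z := by
  unfold vl
  simp only [List.mem_append]
  constructor
  · rintro (h | h | h | h)
    · obtain ⟨o, hp, rfl⟩ := List.mem_map.1 h
      exact ⟨.P ⟨o, List.mem_range.1 hp⟩, rfl⟩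
    · obtain ⟨c, hp, rfl⟩ := List.mem_map.1 h
      exact ⟨.Z ⟨c, List.mem_range.1 hp⟩, rfl⟩
    · obtain ⟨⟨c, i⟩, hj, rfl⟩ := List.mem_map.1 h
      simp only [List.mem_product, List.mem_range, mem_r3] at hj
      exact ⟨.Y ⟨c, hj.1⟩ ⟨i, hj.2⟩, rfl⟩
    · obtain ⟨⟨⟨o, o'⟩, i⟩, hj, rfl⟩ := List.mem_map.1 h
      simp only [List.mem_product, mem_r3] at hj
      have h1 := hj.1
      unfold SL at h1
      rw [List.mem_filter, List.mem_product] at h1
      simp only [List.mem_range] at h1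
      exact ⟨.L ⟨o, h1.1.1⟩ ⟨o', h1.1.2⟩ ((mem_SL C _ _).1 hj.1) ⟨i, hj.2⟩, rfl⟩
  · rintro ⟨x, rfl⟩
    rcases x with o | c | ⟨c, i⟩ | ⟨o, o', hn, i⟩
    · exact Or.inl (List.mem_map.2 ⟨o.1, List.mem_range.2 o.2, rfl⟩)
    · exact Or.inr (Or.inl (List.mem_map.2 ⟨c.1, List.mem_range.2 c.2, rfl⟩))
    · refine Or.inr (Or.inr (Or.inl (List.mem_map.2 ⟨(c.1, i.1), ?_, rfl⟩)))
      simp only [List.mem_product, List.mem_range, mem_r3]
      exact ⟨c.2, i.2⟩
    · refine Or.inr (Or.inr (Or.inr (List.mem_map.2 ⟨((o.1, o'.1), i.1), ?_, rfl⟩)))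
      simp only [List.mem_product, mem_r3]
      exact ⟨(mem_SL C o o').2 hn, i.2⟩

/-- The graph of the constraints. -/
def gr (C : Cs) : SimpleGraph (Fin (vl C).length) := listGraph (vl C) ad ad_symm ad_irrefl

/-- The matrix of the graph. -/
def mtr (C : Cs) : List (List Bool) := (vl C).map fun u => (vl C).map fun w => ad u w

theorem adjMatrix_gr (C : Cs) : adjMatrix (gr C) = mtr C := adjMatrix_listGraph _ _ _ _

theorem iso_gr (C : Cs) : Nonempty (gr C ≃g Gr (nmF C)) := by
  obtain ⟨e, he⟩ := exists_equiv (vl C) (nodup_vl C) (lab (nm := nmF C)) lab_injective (mem_vl C)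
  refine ⟨⟨e, ?_⟩⟩
  intro i j
  rw [← ad_lab, he, he]
  rfl

theorem cut_iso {V W : Type} {G : SimpleGraph V} {H : SimpleGraph W} (e : G ≃g H)
    (h : ∃ A, IsMatchingCut G A) : ∃ A, IsMatchingCut H A := by
  obtain ⟨A, ⟨a, ha⟩, ⟨b, hb⟩, h⟩ := h
  refine ⟨{w | e.symm w ∈ A}, ⟨e a, ?_⟩, ⟨e b, ?_⟩, ?_⟩
  · show e.symm (e a) ∈ A
    rwa [e.symm_apply_apply]
  · show ¬ e.symm (e b) ∈ A
    rwa [e.symm_apply_apply]
  · intro u v w h1 h2 h3 h4
    exact e.symm.injective (h _ _ _ (e.symm.map_adj_iff.2 h1) (e.symm.map_adj_iff.2 h2) h3 h4)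

theorem gr_cut (C : Cs) : SolC C ↔ ∃ A, IsMatchingCut (gr C) A := by
  obtain ⟨e⟩ := iso_gr C
  rw [solC_iff, ← cut_iff]
  exact ⟨cut_iso e.symm, cut_iso e⟩

theorem gr_free (C : Cs) : S2222.Free (gr C) := by
  obtain ⟨e⟩ := iso_gr C
  intro hc
  exact Gr_free ((isContained_congr_right e).1 hc)

end Pool.Agent.R892.MC
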