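import Pool.Agent.R892.MC.Lab
import Pool.Agent.R892.P5.Mem

/-!
# Matching cuts: membership in NP, and the reduction is polynomial
-/

set_option autoImplicit false
set_option linter.unusedSectionVars false

namespace Pool.Agent.NPC.R892

open Pool.Agent.R892 Pool.Agent.R892.MC Pool.Agent.NPC.R671 Pool.Agent.NPC.WC648 SimpleGraph

variable {α : Type} [TEnc α]

/-! ### Membership -/

/-- The verifier. -/
def chkM (k : ℕ) (D E : List (ℕ × ℕ)) (p : List (List Bool) × List Bool) : Bool :=
  isAdjB p.1 && (freeB k D E p.1 && (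
  (List.range p.1.length).any (fun i => p.2.getD i false) &&
  ((List.range p.1.length).any (fun i => !p.2.getD i false) &&
  (List.range p.1.length).all fun i => (List.range p.1.length).all fun j =>
    (List.range p.1.length).all fun l =>
      !ent p.1 i j || (!ent p.1 i l || (!(!decide (p.2.getD i false = p.2.getD j false)) ||
        (!(!decide (p.2.getD i false = p.2.getD l false)) || decide (j = l)))))))

theorem chkM_iff (k : ℕ) (D E : List (ℕ × ℕ)) (I : List (List Bool)) (w : List Bool) :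
    chkM k D E (I, w) = true ↔ IsAdj I ∧ freeB k D E I = true ∧
      (∃ i < I.length, w.getD i false = true) ∧ (∃ i < I.length, w.getD i false = false) ∧
      ∀ i < I.length, ∀ j < I.length, ∀ l < I.length, ent I i j = true → ent I i l = true →
        w.getD i false ≠ w.getD j false → w.getD i false ≠ w.getD l false → j = l := by
  unfold chkM
  simp only [Bool.and_eq_true, List.all_eq_true, List.any_eq_true, decide_eq_true_eq,
    List.mem_range, isAdjB_iff, Bool.or_eq_true, Bool.not_eq_true', Bool.not_not,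
    ne_eq]
  refine and_congr Iff.rfl (and_congr Iff.rfl (and_congr Iff.rfl (and_congr Iff.rfl ?_)))
  refine forall_congr' fun i => forall_congr' fun hi => forall_congr' fun j =>
    forall_congr' fun hj => forall_congr' fun l => forall_congr' fun hl => ?_
  generalize w.getD i false = x
  generalize w.getD j false = y
  generalize w.getD l false = z
  cases ent I i j <;> cases ent I i l <;> by_cases h1 : x = y <;> by_cases h2 : x = z <;>
    simp [h1, h2]

theorem iff_not_mem_iff {p q : Prop} [Decidable p] [Decidable q] :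
    (p ↔ ¬ q) ↔ decide p ≠ decide q := by
  by_cases hp : p <;> by_cases hq : q <;> simp [hp, hq]

theorem mc_iff {k : ℕ} (F : SimpleGraph (Fin k)) (I : List (List Bool)) :
    MatchingCutOn F I ↔ ∃ w : List Bool, w.length = I.length ∧
      chkM k (DF k) (EF F) (I, w) = true := by
  classical
  constructor
  · rintro ⟨n, G, h1, h2, A, ⟨a, ha⟩, ⟨b, hb⟩, h3⟩
    subst h1
    have hget : ∀ i (hi : i < n), (List.ofFn fun i => decide (i ∈ A)).getD i false =
        decide ((⟨i, hi⟩ : Fin n) ∈ A) := by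
      intro i hi
      rw [List.getD_eq_getElem _ _ (by simpa using hi)]
      simp
    refine ⟨List.ofFn fun i => decide (i ∈ A), ?_, ?_⟩
    · rw [length_adjMatrix]; simp
    · rw [chkM_iff, length_adjMatrix]
      refine ⟨isAdj_adjMatrix _, (freeB_iff F G).2 h2, ⟨a.1, a.2, ?_⟩, ⟨b.1, b.2, ?_⟩, ?_⟩
      · rw [hget _ a.2]
        exact decide_eq_true ha
      · rw [hget _ b.2]
        exact decide_eq_false hb
      · intro i hi j hj l hl e1 e2 e3 e4
        rw [hget i hi, hget j hj] at e3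
        rw [hget i hi, hget l hl] at e4
        have := h3 ⟨i, hi⟩ ⟨j, hj⟩ ⟨l, hl⟩ ((ent_adjMatrix G ⟨i, hi⟩ ⟨j, hj⟩).1 e1)
          ((ent_adjMatrix G ⟨i, hi⟩ ⟨l, hl⟩).1 e2) (iff_not_mem_iff.2 e3) (iff_not_mem_iff.2 e4)
        exact congrArg Fin.val this
  · rintro ⟨w, -, hw⟩
    rw [chkM_iff] at hw
    obtain ⟨h1, h2, ⟨a, ha, ha'⟩, ⟨b, hb, hb'⟩, h5⟩ := hw
    refine ⟨I.length, matG I _ h1 rfl, adjMatrix_matG _ _ _ _, ?_,
      {i | w.getD i.1 false = true}, ⟨⟨a, ha⟩, ha'⟩, ⟨⟨b, hb⟩, ?_⟩, ?_⟩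
    · rw [← freeB_iff, adjMatrix_matG]; exact h2
    · show ¬ w.getD b false = true
      rw [hb']
      simp
    · intro u v x e1 e2 e3 e4
      refine Fin.ext (h5 u.1 u.2 v.1 v.2 x.1 x.2 e1 e2 ?_ ?_)
      · intro he
        have e3' : w.getD u.1 false = true ↔ ¬ w.getD v.1 false = true := e3
        rw [he] at e3'
        exact iff_not_self e3'
      · intro he
        have e4' : w.getD u.1 false = true ↔ ¬ w.getD x.1 false = true := e4
        rw [he] at e4'
        exact iff_not_self e4'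

theorem poly_chkM (k : ℕ) (D E : List (ℕ × ℕ)) : Poly (chkM k D E) := by
  unfold chkM
  have h : ∀ {β : Type} [TEnc β] {f : β → List (List Bool)}, Poly f →
      Poly (fun a => List.range (f a).length) := fun hf => Poly.range_length hf
  refine Poly.and (poly_isAdjB.comp (Poly.fst Poly.id)) (Poly.and
    ((poly_freeB k D E).comp (Poly.fst Poly.id)) (Poly.and ?_ (Poly.and ?_ ?_)))
  · exact Poly.any (h (Poly.fst Poly.id)) (by fun_prop)
  · exact Poly.any (h (Poly.fst Poly.id)) (by fun_prop)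
  · refine Poly.all (h (Poly.fst Poly.id)) ?_
    refine Poly.all (h (Poly.fst (Poly.fst Poly.id))) ?_
    refine Poly.all (h (Poly.fst (Poly.fst (Poly.fst Poly.id)))) ?_
    refine Poly.or (Poly.not ?_) (Poly.or (Poly.not ?_) ?_)
    · exact poly_ent (by fun_prop) (by fun_prop) (by fun_prop)
    · exact poly_ent (by fun_prop) (by fun_prop) (by fun_prop)
    · fun_prop

theorem inNPP_mcut {k : ℕ} (F : SimpleGraph (Fin k)) : InNPP (MatchingCutOn F) := by
  refine inNPP_of (β := List Bool) (poly_chkM k (DF k) (EF F))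
    (Polynomial.X * Polynomial.C 8 + Polynomial.C 1) ?_
  intro I
  rw [mc_iff]
  constructor
  · rintro ⟨w, h1, h3⟩
    refine ⟨w, ?_, h3⟩
    have h6 := length_lt_sz I
    have h7 : ∀ a ∈ w, sz a ≤ 7 := by
      intro a _
      cases a <;> decide
    have h8 := sz_le_length_mul _ _ h7
    rw [h1] at h8
    simp only [Polynomial.eval_add, Polynomial.eval_mul, Polynomial.eval_X, Polynomial.eval_C]
    omega
  · rintro ⟨w, -, hw⟩
    have hw' := hw
    rw [chkM_iff] at hw'
    obtain ⟨h1, h2, ⟨a, ha, ha'⟩, ⟨b, hb, hb'⟩, h5⟩ := hw'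
    refine ⟨(List.range I.length).map fun i => w.getD i false, by simp, ?_⟩
    have hg : ∀ i < I.length, ((List.range I.length).map fun i => w.getD i false).getD i false =
        w.getD i false := by
      intro i hi
      rw [List.getD_eq_getElem _ _ (by simpa using hi)]
      simp
    rw [chkM_iff]
    refine ⟨h1, h2, ⟨a, ha, ?_⟩, ⟨b, hb, ?_⟩, fun i hi j hj l hl => ?_⟩
    · rw [hg a ha]; exact ha'
    · rw [hg b hb]; exact hb'
    · rw [hg i hi, hg j hj, hg l hl]
      exact h5 i hi j hj l hl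

theorem mcut_congr {W W' : Type} {F : SimpleGraph W} {F' : SimpleGraph W'} (e : F ≃g F') :
    MatchingCutOn F = MatchingCutOn F' := by
  funext I
  unfold MatchingCutOn SimpleGraph.Free
  simp only [isContained_congr_left e]

theorem inNPP_mcutF {W : Type} [Finite W] (F : SimpleGraph W) : InNPP (MatchingCutOn F) := by
  obtain ⟨k, ⟨e⟩⟩ := Finite.exists_equiv_fin W
  have e' : F ≃g F.map e.toEmbedding := SimpleGraph.Iso.map e F
  rw [mcut_congr e']
  exact inNPP_mcut _

/-! ### The reduction is polynomial -/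

theorem poly_toC : Poly toC := by
  unfold toC
  have h : Poly (fun x : List (NV × NV × NV) × (NV × NV × NV) => cc x.2) := by
    unfold cc vc ps ng
    generalize tT = a
    generalize tF = b
    fun_prop
  have h2 : Poly (fun φ : List (NV × NV × NV) => φ.flatMap cc) :=
    Poly.flatMap (F := fun _ c => cc c) Poly.id h
  exact Poly.cons (Poly.const _) h2

theorem poly_nmLM {f : α → Cs} {g : α → ℕ} (hf : Poly f) (hg : Poly g) :
    Poly (fun a => MC.nmL (f a) (g a)) := by
  unfold MC.nmL
  fun_prop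

theorem poly_SLM : Poly MC.SL := by
  have hl : UPoly (fun E : Cs => E.length) := UPoly.length Poly.id
  have h1 : Poly (fun E : Cs => List.range (3 * E.length)) :=
    UPoly.range ((UPoly.const 3).mul hl)
  unfold MC.SL
  refine Poly.filter (p := fun E (p : ℕ × ℕ) => decide (MC.nmL E p.1 = MC.nmL E p.2) &&
    (decide (p.1 < p.2) && (List.range (3 * E.length)).all fun k =>
        !(decide (p.1 < k) && (decide (k < p.2) && decide (MC.nmL E k = MC.nmL E p.1)))))
    (poly_product h1 h1) ?_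
  have e1 : Poly (fun x : Cs × (ℕ × ℕ) => MC.nmL x.1 x.2.1) :=
    poly_nmLM (Poly.fst Poly.id) (Poly.fst (Poly.snd Poly.id))
  have e2 : Poly (fun x : Cs × (ℕ × ℕ) => MC.nmL x.1 x.2.2) :=
    poly_nmLM (Poly.fst Poly.id) (Poly.snd (Poly.snd Poly.id))
  refine Poly.and (Poly.dec_eq e1 e2) (Poly.and (by fun_prop) ?_)
  refine Poly.all (p := fun (x : Cs × (ℕ × ℕ)) k =>
    !(decide (x.2.1 < k) && (decide (k < x.2.2) && decide (MC.nmL x.1 k = MC.nmL x.1 x.2.1))))
    (h1.comp (Poly.fst Poly.id)) ?_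
  have e3 : Poly (fun x : (Cs × (ℕ × ℕ)) × ℕ => MC.nmL x.1.1 x.2) :=
    poly_nmLM (Poly.fst (Poly.fst Poly.id)) (Poly.snd Poly.id)
  have e4 : Poly (fun x : (Cs × (ℕ × ℕ)) × ℕ => MC.nmL x.1.1 x.1.2.1) :=
    poly_nmLM (Poly.fst (Poly.fst Poly.id)) (Poly.fst (Poly.snd (Poly.fst Poly.id)))
  have e5 := Poly.dec_eq e3 e4
  fun_prop

theorem poly_adM : Poly (fun p : MC.Lab × MC.Lab => MC.ad p.1 p.2) := by
  unfold MC.ad MC.rl
  fun_prop

theorem poly_vlM : Poly MC.vl := by
  have hl : UPoly (fun E : Cs => E.length) := UPoly.length Poly.id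
  have h1 : Poly (fun E : Cs => List.range E.length) := UPoly.range hl
  have h2 : Poly (fun E : Cs => List.range (3 * E.length)) :=
    UPoly.range ((UPoly.const 3).mul hl)
  have h3 := poly_SLM
  have h5 : Poly (fun _ : Cs => MC.r3) := Poly.const _
  have a0 : Poly MC.v0 := by unfold MC.v0; fun_prop
  have a1 : Poly MC.v1 := by unfold MC.v1; fun_prop
  have a2 : Poly MC.v2 := by
    unfold MC.v2
    generalize MC.r3 = rq at *
    fun_prop
  have a3 : Poly MC.v3 := by
    unfold MC.v3
    generalize MC.r3 = rq at *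
    have := poly_product h3 h5
    exact Poly.map (l := fun C : Cs => MC.SL C ×ˢ rq)
      (F := fun (_ : Cs) (p : (ℕ × ℕ) × ℕ) => ((3, p.1.1, p.1.2, p.2) : MC.Lab)) this (by fun_prop)
  unfold MC.vl
  fun_prop

theorem poly_mtrM : Poly MC.mtr := by
  have hv := poly_vlM
  have h1 : Poly (fun p : (Cs × MC.Lab) × MC.Lab => MC.ad p.1.2 p.2) :=
    poly_adM.comp (Poly.pair (Poly.snd (Poly.fst Poly.id)) (Poly.snd Poly.id))
  have h2 : Poly (fun p : Cs × MC.Lab => (MC.vl p.1).map fun w => MC.ad p.2 w) :=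
    Poly.map (l := fun p : Cs × MC.Lab => MC.vl p.1)
      (F := fun (p : Cs × MC.Lab) w => MC.ad p.2 w) (hv.comp (Poly.fst Poly.id)) h1
  exact Poly.map (l := MC.vl) (F := fun E u => (MC.vl E).map fun w => MC.ad u w) hv h2

/-! ### Hardness -/

theorem mcut_adjMatrix {W : Type} {F : SimpleGraph W} {n : ℕ} (G : SimpleGraph (Fin n)) :
    MatchingCutOn F (R671.adjMatrix G) ↔ F.Free G ∧ ∃ A, IsMatchingCut G A := by
  constructor
  · rintro ⟨n', G', h1, h3⟩
    have hn : n' = n := by
      have := congrArg List.length h1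
      rwa [length_adjMatrix, length_adjMatrix] at this
    subst hn
    rw [adjMatrix_inj h1] at h3
    exact h3
  · intro h
    exact ⟨n, G, rfl, h⟩

theorem hard_mcut : ∀ L : Set (List Bool), InNP L →
    ∃ f : List Bool → List Bool, PolyTime f ∧
    ∀ x, ∃ (n : ℕ) (G : SimpleGraph (Fin n)), f x = bits (R671.adjMatrix G) ∧
      S2222.Free G ∧ (x ∈ L ↔ ∃ A, IsMatchingCut G A) := by
  intro L hL
  obtain ⟨g, hg, hgL⟩ := hardI_NAE L hL
  refine ⟨fun x => bits (MC.mtr (toC (g x))), ?_, fun x => ?_⟩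
  · exact PC.toPolyTime_bits (f := fun φ => MC.mtr (toC φ)) (poly_mtrM.comp poly_toC) g hg
  · refine ⟨_, MC.gr (toC (g x)), ?_, gr_free _, ?_⟩
    · rw [MC.adjMatrix_gr]
    · rw [hgL, toC_iff]
      exact gr_cut _

theorem npHard_mcut {W : Type} {F : SimpleGraph W} (hF : S2222 ⊑ F) :
    NPHardP (MatchingCutOn F) := by
  intro L hL
  obtain ⟨f, hf, h⟩ := hard_mcut L hL
  refine ⟨f, hf, fun x => ?_⟩
  obtain ⟨n, G, h1, h2, h4⟩ := h x
  have e : (x ∈ L) ↔ MatchingCutOn F (R671.adjMatrix G) := by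
    rw [mcut_adjMatrix, h4]
    exact ⟨fun h => ⟨fun h' => h2 (hF.trans h'), h⟩, fun h => h.2⟩
  rw [e]
  constructor
  · intro h3
    exact ⟨_, h1.symm, h3⟩
  · rintro ⟨a, ha, h3⟩
    rw [h1] at ha
    rwa [bits_injective ha] at h3

end Pool.Agent.NPC.R892
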